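import Pool.Agent.H867.FT.Gen

/-!
# A Noetherian normal domain is the intersection of its localizations at the height one primes
-/

set_option autoImplicit false

namespace Pool.Agent.H738.FT867KRU

open Submodule

/-- **KRU.** -/
theorem kru : Pool.Agent.H867.FT.S_KRU := by
  intro P L _ _ _ _ _ _ _ z hz
  by_contra hne
  let N : Submodule P L := LinearMap.range (Algebra.linearMap P L)
  have hN : ∀ y : L, y ∈ N ↔ ∃ g : P, algebraMap P L g = y := fun y => Iff.rfl
  have hinj : Function.Injective (algebraMap P L) := IsFractionRing.injective P L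
  have hc : ∀ (r : P) (w : L), r ∈ (⊥ : Submodule P (L ⧸ N)).colon {N.mkQ w} ↔
      ∃ g : P, algebraMap P L g = algebraMap P L r * w := by
    intro r w
    rw [mem_colon_singleton, mem_bot, ← map_smul, mkQ_apply, Quotient.mk_eq_zero, Algebra.smul_def]
    rfl
  have hx : (N.mkQ z) ≠ 0 := by
    rw [Ne, mkQ_apply, Quotient.mk_eq_zero]
    rintro ⟨g, hg⟩
    exact hne ⟨g, hg.symm⟩
  obtain ⟨𝔭, h𝔭, hle⟩ := exists_le_isAssociatedPrime_of_isNoetherianRing P (N.mkQ z) hx
  rw [isAssociatedPrime_iff] at h𝔭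
  obtain ⟨hp, y, hy⟩ := h𝔭
  obtain ⟨z', rfl⟩ := N.mkQ_surjective y
  have hp' : ∀ r : P, r ∈ 𝔭 ↔ ∃ g : P, algebraMap P L g = algebraMap P L r * z' := by
    intro r
    rw [hy, hc]
  -- the prime is not zero
  have hbot : 𝔭 ≠ ⊥ := by
    intro h0
    obtain ⟨⟨a, s⟩, has⟩ := IsLocalization.surj (nonZeroDivisors P) z
    have h1 : (s : P) ∈ 𝔭 := hle ((hc _ _).2 ⟨a, by rw [← has, mul_comm]⟩)
    rw [h0, Ideal.mem_bot] at h1
    exact nonZeroDivisors.coe_ne_zero s h1
  -- an element of the prime is mapped outside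
  have hex : ∃ p0 ∈ 𝔭, ∃ s0 : P, s0 ∉ 𝔭 ∧ algebraMap P L s0 = algebraMap P L p0 * z' := by
    by_contra hno
    push Not at hno
    have hstab : ∀ p0 ∈ 𝔭, ∃ s0 ∈ 𝔭, algebraMap P L s0 = algebraMap P L p0 * z' := by
      intro p0 h0
      obtain ⟨g, hg⟩ := (hp' p0).1 h0
      refine ⟨g, ?_, hg⟩
      by_contra hg'
      exact hno p0 h0 g hg' hg
    let M : Submodule P L := Submodule.map (Algebra.linearMap P L) 𝔭
    have hint : IsIntegral P z' := by
      refine isIntegral_of_smul_mem_submodule M ?_ ?_ z' ?_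
      · rw [Submodule.ne_bot_iff]
        obtain ⟨s, hs, hs0⟩ := Submodule.exists_mem_ne_zero_of_ne_bot hbot
        refine ⟨_, ⟨s, hs, rfl⟩, ?_⟩
        exact (map_ne_zero_iff _ hinj).2 hs0
      · exact Submodule.FG.map _ (IsNoetherian.noetherian _)
      · rintro _ ⟨p0, h0, rfl⟩
        obtain ⟨s0, hs0, h1⟩ := hstab p0 h0
        refine ⟨s0, hs0, ?_⟩
        show algebraMap P L s0 = z' • algebraMap P L p0
        rw [h1, smul_eq_mul, mul_comm]
    obtain ⟨y, hy'⟩ := IsIntegrallyClosed.algebraMap_eq_of_integral hint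
    apply hp.ne_top
    rw [Ideal.eq_top_iff_one, hp']
    exact ⟨y, by rw [map_one, one_mul, hy']⟩
  obtain ⟨p0, hp0, s0, hs0, h0⟩ := hex
  -- the prime is minimal over a principal ideal
  have hmin : 𝔭 ∈ (Ideal.span {p0}).minimalPrimes := by
    refine ⟨⟨hp, (Ideal.span_singleton_le_iff_mem _).2 hp0⟩, ?_⟩
    rintro 𝔮 ⟨hq, hq0⟩ hqp m hm
    obtain ⟨g, hg⟩ := (hp' m).1 hm
    have h1 : g * p0 = m * s0 := by
      apply hinj
      rw [map_mul, map_mul, hg, h0]
      ring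
    have h2 : m * s0 ∈ 𝔮 := by
      rw [← h1]
      exact 𝔮.mul_mem_left g ((Ideal.span_singleton_le_iff_mem _).1 hq0)
    rcases hq.mem_or_mem h2 with h3 | h3
    · exact h3
    · exact absurd (hqp h3) hs0
  have hht : 𝔭.height = 1 := by
    refine le_antisymm (Ideal.height_le_one_of_isPrincipal_of_mem_minimalPrimes _ 𝔭 hmin) ?_
    rw [Order.one_le_iff_ne_zero, Ne, Ideal.height_eq_zero_iff_eq_bot]
    exact hbot
  obtain ⟨s, hs, g, hg⟩ := hz 𝔭 hp hht
  exact hs (hle ((hc _ _).2 ⟨g, hg.symm⟩))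

end Pool.Agent.H738.FT867KRU
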