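import Pool.Agent.H283.HT.Stm

/-!
# The key inequality `S_L1` of the project HT
-/

set_option autoImplicit false

namespace Pool.Agent.H738.HTL1

open Pool.Agent.H283.HT

lemma half (D AB P r X Y N : ℝ) (hN : D * N = P * X + r * Y) (hP : AB ≤ P) (hr1 : r ≤ AB)
    (hr2 : -AB ≤ r) (hX : 0 ≤ X) : AB * (X - |Y|) ≤ D * N := by
  have h1 : AB * X ≤ P * X := mul_le_mul_of_nonneg_right hP hX
  have h2 : |r| ≤ AB := abs_le.mpr ⟨hr2, hr1⟩
  have h3 : |r * Y| ≤ AB * |Y| := by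
    rw [abs_mul]
    exact mul_le_mul_of_nonneg_right h2 (abs_nonneg _)
  have h4 := neg_abs_le (r * Y)
  rw [hN]
  nlinarith [h1, h3, h4]

lemma half' (D AB P r X Y N : ℝ) (hN : D * N = P * X + r * Y) (hP : AB < P) (hr1 : r ≤ AB)
    (hr2 : -AB ≤ r) (hX : 0 < X) : AB * (X - |Y|) < D * N := by
  have h1 : AB * X < P * X := mul_lt_mul_of_pos_right hP hX
  have h2 : |r| ≤ AB := abs_le.mpr ⟨hr2, hr1⟩
  have h3 : |r * Y| ≤ AB * |Y| := by
    rw [abs_mul]
    exact mul_le_mul_of_nonneg_right h2 (abs_nonneg _)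
  have h4 := neg_abs_le (r * Y)
  rw [hN]
  nlinarith [h1, h3, h4]

lemma comb (D AB CD N₁ N₂ U V τ τ' : ℝ) (hD : 0 < D) (hAB : 0 < AB) (hCD : 0 < CD)
    (hτ : 0 < τ) (hτ' : 0 < τ') (h1 : AB * U ≤ D * N₁) (h2 : CD * V ≤ D * N₂)
    (hs : 0 ≤ τ' * U + τ * V) :
    0 ≤ τ' * N₁ * CD + τ * N₂ * AB ∧
      (AB * U < D * N₁ ∨ CD * V < D * N₂ → 0 < τ' * N₁ * CD + τ * N₂ * AB) := by
  have e1 : D * (τ' * N₁ * CD + τ * N₂ * AB) =
      τ' * CD * (D * N₁ - AB * U) + τ * AB * (D * N₂ - CD * V) +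
        AB * CD * (τ' * U + τ * V) := by ring
  have k1 : 0 < τ' * CD := mul_pos hτ' hCD
  have k2 : 0 < τ * AB := mul_pos hτ hAB
  have k3 : 0 ≤ AB * CD * (τ' * U + τ * V) := mul_nonneg (mul_pos hAB hCD).le hs
  have k4 : 0 ≤ τ' * CD * (D * N₁ - AB * U) := mul_nonneg k1.le (sub_nonneg.mpr h1)
  have k5 : 0 ≤ τ * AB * (D * N₂ - CD * V) := mul_nonneg k2.le (sub_nonneg.mpr h2)
  refine ⟨?_, fun h => ?_⟩
  · have : 0 ≤ D * (τ' * N₁ * CD + τ * N₂ * AB) := by rw [e1]; linarith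
    exact nonneg_of_mul_nonneg_right this hD
  · have : 0 < D * (τ' * N₁ * CD + τ * N₂ * AB) := by
      rw [e1]
      rcases h with h | h
      · have := mul_pos k1 (sub_pos.mpr h)
        linarith
      · have := mul_pos k2 (sub_pos.mpr h)
        linarith
    exact (pos_iff_pos_of_mul_pos this).mp hD

lemma nonneg_top (K : Set P3) (hK : Body K) (x n : P3) (hx : x ∈ K) (hn : n ∈ NK K x)
    (hne : n.2 ≠ 0) : 0 ≤ dt n.1 x.1 := by
  have h1 := hn _ hK.top
  have h2 := hn _ hK.bot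
  have hz1 := hK.le x hx
  have hz2 := hK.ge x hx
  simp only [ip, dt] at h1 h2 ⊢
  simp only [Prod.fst_zero, Prod.snd_zero, mul_zero, add_zero, zero_add, mul_one, mul_neg] at h1 h2
  rcases lt_or_gt_of_ne hne with h | h
  · nlinarith
  · nlinarith

theorem L1_done (hPOS : S_POS) (hTR4 : S_TR4) : S_L1 := by
  intro K q hK hQ hq a b c d t t' x x' n n' hab hbc hcd hda hat htb hct' ht'd htt' ht't hx hxq hn
    hx' hxq' hn' hnn
  obtain ⟨pos, -, -, -, -, -⟩ := hPOS (Sh K) q hQ hq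
  obtain ⟨T1, T2, T3, T4⟩ := hTR4 (Sh K) q hQ hq
  have hD : 0 < det (q t) (q t') := pos t t' htt' ht't
  have hAB : 0 < det (q a) (q b) := pos a b hab (by linarith)
  have hCD : 0 < det (q c) (q d) := pos c d hcd (by linarith)
  have i1 := T1 a b t' (by linarith) (by linarith) hab.le
  have i2 := T2 a b t hat htb (by linarith)
  have i3 := T3 a b t hat htb (by linarith)
  have i4 := T4 c d t (by linarith) (by linarith) hcd.le
  have i5 := T2 c d t' hct' ht'd (by linarith)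
  have i6 := T3 c d t' hct' ht'd (by linarith)
  have hne : n.2 ≠ 0 := by
    intro h
    rw [h, zero_mul] at hnn
    exact lt_irrefl _ hnn
  have hne' : n'.2 ≠ 0 := by
    intro h
    rw [h, mul_zero] at hnn
    exact lt_irrefl _ hnn
  have hτ : 0 < |n.2| := abs_pos.mpr hne
  have hτ' : 0 < |n'.2| := abs_pos.mpr hne'
  have X0 : 0 ≤ dt n.1 (q t) := by
    have := nonneg_top K hK x n hx hn hne
    rwa [hxq] at this
  have X0' : 0 ≤ dt n'.1 (q t') := by
    have := nonneg_top K hK x' n' hx' hn' hne'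
    rwa [hxq'] at this
  -- normal inequalities
  have m1 := hn x' hx'
  have m2 := hn (R x') (hK.sym x' hx')
  have m3 := hn' x hx
  have m4 := hn' (R x) (hK.sym x hx)
  have dneg : ∀ u v : P2, dt u (-v) = - dt u v := by
    intro u v
    simp only [dt, Prod.fst_neg, Prod.snd_neg]
    ring
  simp only [ip, R, hxq, hxq', dneg] at m1 m2 m3 m4
  have s1 : |dt n.1 (q t')| ≤ dt n.1 (q t) + n.2 * (x.2 - x'.2) := by
    rw [abs_le]
    constructor <;> linarith
  have s2 : |dt n'.1 (q t)| ≤ dt n'.1 (q t') + n'.2 * (x'.2 - x.2) := by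
    rw [abs_le]
    constructor <;> linarith
  have hsg : |n'.2| * n.2 = |n.2| * n'.2 := by
    rcases lt_or_gt_of_ne hne with h | h
    · have h' : n'.2 < 0 := by
        by_contra hc
        push Not at hc
        have := mul_nonpos_of_nonpos_of_nonneg h.le hc
        linarith
      rw [abs_of_neg h, abs_of_neg h']
      ring
    · have h' : 0 < n'.2 := (pos_iff_pos_of_mul_pos hnn).mp h
      rw [abs_of_pos h, abs_of_pos h']
      ring
  have hstar : 0 ≤ |n'.2| * (dt n.1 (q t) - |dt n.1 (q t')|) +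
      |n.2| * (dt n'.1 (q t') - |dt n'.1 (q t)|) := by
    have a1 : |n'.2| * (n.2 * (x'.2 - x.2)) ≤ |n'.2| * (dt n.1 (q t) - |dt n.1 (q t')|) :=
      mul_le_mul_of_nonneg_left (by linarith) hτ'.le
    have a2 : |n.2| * (n'.2 * (x.2 - x'.2)) ≤ |n.2| * (dt n'.1 (q t') - |dt n'.1 (q t)|) :=
      mul_le_mul_of_nonneg_left (by linarith) hτ.le
    have a3 : |n'.2| * (n.2 * (x'.2 - x.2)) + |n.2| * (n'.2 * (x.2 - x'.2)) = 0 := by
      have : |n'.2| * (n.2 * (x'.2 - x.2)) + |n.2| * (n'.2 * (x.2 - x'.2)) =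
          (|n'.2| * n.2 - |n.2| * n'.2) * (x'.2 - x.2) := by ring
      rw [this, hsg, sub_self, zero_mul]
    linarith
  have c1 : det (q t) (q t') * dt n.1 (q a + q b) =
      (det (q a) (q t') + det (q b) (q t')) * dt n.1 (q t) +
        (det (q t) (q b) - det (q a) (q t)) * dt n.1 (q t') := by
    simp only [det, dt, Prod.fst_add, Prod.snd_add]
    ring
  have c2 : det (q t) (q t') * dt n'.1 (q c + q d) =
      (det (q t) (q c) + det (q t) (q d)) * dt n'.1 (q t') +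
        (det (q c) (q t') - det (q t') (q d)) * dt n'.1 (q t) := by
    simp only [det, dt, Prod.fst_add, Prod.snd_add]
    ring
  have H1 := half _ _ _ _ _ _ _ c1 i1 (by linarith) (by linarith) X0
  have H2 := half _ _ _ _ _ _ _ c2 i4 (by linarith) (by linarith) X0'
  obtain ⟨F1, F2⟩ := comb _ _ _ _ _ _ _ _ _ hD hAB hCD hτ hτ' H1 H2 hstar
  refine ⟨F1, fun h => F2 ?_⟩
  rcases h with ⟨h1, h2⟩ | ⟨h1, h2⟩
  · left
    exact half' _ _ _ _ _ _ _ c1 h2 (by linarith) (by linarith) h1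
  · right
    exact half' _ _ _ _ _ _ _ c2 h2 (by linarith) (by linarith) h1

end Pool.Agent.H738.HTL1
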