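import Pool.Agent.H465.CG.Stm2

/-!
# CG-9: the data `HM` for the primitive Hecke characters of nonzero infinity type (helper738)
-/

set_option autoImplicit false

open MeasureTheory Metric Set Filter Topology Asymptotics
open scoped Real ENNReal ComplexConjugate
open NumberField IsDedekindDomain

namespace Pool.Agent.H738.CGM

open Pool.Agent.H465.CG (HM SHMhecke)
open Pool.Agent.H465.PT (rpow_exp gr_diff R_one)
open Pool.Agent.H465.EQ (re_conj_sub)
open Pool.Agent.Y773 (LI)
open Pool.Agent.N784.HC (FEm GGm CTyp IsHecke fty ex ex_nonneg inf_fty)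

section

variable {ι : Type} [Fintype ι]

lemma GGm_diff {μ : ι → ℝ} (hμ : ∀ i, 0 ≤ μ i) {R : ℝ} (hR : 1 ≤ R) {s : ℂ} (hs : 0 < s.re) :
    DifferentiableAt ℂ (GGm R μ) s := by
  have h1 : (GGm R μ : ℂ → ℂ) = fun s => Complex.exp (((Real.log R / 2 : ℝ) : ℂ) * s) *
      ∏ φ, Complex.Gammaℝ (s + μ φ) := by
    funext z
    unfold GGm
    rw [rpow_exp hR]
  rw [h1]
  refine DifferentiableAt.mul ((differentiableAt_id.const_mul _).cexp) ?_
  refine DifferentiableAt.fun_finsetProd fun φ _ => ?_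
  refine (gr_diff ?_).comp s (differentiableAt_id.add_const _)
  simp only [id_eq, Complex.add_re, Complex.ofReal_re]
  linarith [hμ φ]

end

section
variable {K : Type} [Field K] [NumberField K] {ψ : Ideal (𝓞 K) →*₀ ℂ}

/-- the shifts over a totally complex field are `0` or at least `1/2` -/
lemma ex_alt [IsTotallyComplex K] (m : (K →+* ℂ) → ℕ) (φ : K →+* ℂ) :
    ex m φ = 0 ∨ 1 / 2 ≤ ex m φ := by
  classical
  have hr : ¬ (InfinitePlace.mk φ).IsReal :=
    InfinitePlace.not_isReal_iff_isComplex.2 (IsTotallyComplex.isComplex _)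
  unfold ex
  rw [if_neg hr]
  split_ifs with h
  · rcases Nat.eq_zero_or_pos (Pool.Agent.N784.HC.NW m (InfinitePlace.mk φ)) with h0 | h0
    · left
      rw [h0]
      simp
    · right
      have : (1 : ℝ) ≤ (Pool.Agent.N784.HC.NW m (InfinitePlace.mk φ) : ℝ) := by exact_mod_cast h0
      linarith
  · right
    have : (0 : ℝ) ≤ (Pool.Agent.N784.HC.NW m (InfinitePlace.mk φ) : ℝ) := Nat.cast_nonneg _
    linarith

/-- from functional equation data to `HM` -/
theorem hm_of {R M : ℝ} (hR : 1 ≤ R) {μ : (K →+* ℂ) → ℝ} {F : ℂ → ℂ} (hF : FEm R μ F)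
    (hFs : ∀ s : ℂ, 1 < s.re → F s = LI ψ s) (hμ : ∀ φ, 0 ≤ μ φ)
    (hμ1 : ∀ φ, μ φ = 0 ∨ 1 / 2 ≤ μ φ) (hμM : ∀ φ, μ φ ≤ M) (hle : ∀ 𝔞, ‖ψ 𝔞‖ ≤ 1)
    (hone : ∀ s : ℂ, s.re = 1 → F s ≠ 0) :
    ∃ Λ : ℂ → ℂ, HM ψ 0 M μ R Λ F := by
  obtain ⟨w, hw, hfe⟩ := hF.fe
  have hd1 : ∀ s : ℂ, 0 < s.re → DifferentiableAt ℂ (fun s => GGm R μ s * F s) s := fun s hs =>
    (GGm_diff hμ hR hs).mul (hF.diff s)
  -- the reflected function
  set P : ℂ → ℂ := fun s => GGm R μ s * F s with hP
  set Q : ℂ → ℂ := fun s => w * conj (P (1 - conj s)) with hQ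
  have hd2 : ∀ s : ℂ, s.re < 1 → DifferentiableAt ℂ Q s := by
    intro s hs
    have h1 : DifferentiableAt ℂ P (1 - conj s) := hd1 _ (by simp; linarith)
    have h2 : DifferentiableAt ℂ (fun z => P (1 - z)) (conj s) :=
      DifferentiableAt.comp (conj s) h1 (differentiableAt_id.const_sub 1)
    have h3 := h2.conj_conj
    rw [Complex.conj_conj] at h3
    exact h3.const_mul w
  have hPQ : ∀ s : ℂ, 0 < s.re → s.re < 1 → P s = Q s := by
    intro s h1 h2
    by_cases h3 : s.im = 0
    · -- by continuity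
      have c1 : Tendsto (fun t : ℝ => P (s + t * Complex.I)) (𝓝[≠] 0) (𝓝 (P s)) := by
        have : Tendsto (fun t : ℝ => s + t * Complex.I) (𝓝[≠] 0) (𝓝 s) := by
          have h4 : Continuous fun t : ℝ => s + t * Complex.I := by fun_prop
          have h5 := h4.tendsto 0
          simp only [Complex.ofReal_zero, zero_mul, add_zero] at h5
          exact h5.mono_left nhdsWithin_le_nhds
        exact (hd1 s h1).continuousAt.tendsto.comp this
      have c2 : Tendsto (fun t : ℝ => Q (s + t * Complex.I)) (𝓝[≠] 0) (𝓝 (Q s)) := by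
        have : Tendsto (fun t : ℝ => s + t * Complex.I) (𝓝[≠] 0) (𝓝 s) := by
          have h4 : Continuous fun t : ℝ => s + t * Complex.I := by fun_prop
          have h5 := h4.tendsto 0
          simp only [Complex.ofReal_zero, zero_mul, add_zero] at h5
          exact h5.mono_left nhdsWithin_le_nhds
        exact (hd2 s h2).continuousAt.tendsto.comp this
      refine tendsto_nhds_unique c1 (c2.congr' ?_)
      filter_upwards [self_mem_nhdsWithin] with t ht
      refine (hfe _ ?_).symm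
      simp only [Complex.add_im, h3, Complex.mul_im, Complex.ofReal_re, Complex.I_im,
        Complex.ofReal_im, Complex.I_re]
      simpa using ht
    · exact hfe s h3
  set Λ : ℂ → ℂ := fun s => if 0 < s.re then P s else Q s with hΛ
  have hL1 : ∀ s : ℂ, 0 < s.re → Λ s = P s := fun s hs => if_pos hs
  have hL2 : ∀ s : ℂ, s.re < 1 → Λ s = Q s := by
    intro s hs
    by_cases h : 0 < s.re
    · rw [hL1 s h, hPQ s h hs]
    · exact if_neg h
  have hent : Differentiable ℂ Λ := by
    intro s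
    by_cases h : 0 < s.re
    · refine (hd1 s h).congr_of_eventuallyEq ?_
      filter_upwards [(isOpen_lt continuous_const Complex.continuous_re).mem_nhds h] with z hz
      exact hL1 z hz
    · have h2 : s.re < 1 := by linarith
      refine (hd2 s h2).congr_of_eventuallyEq ?_
      filter_upwards [(isOpen_lt Complex.continuous_re continuous_const).mem_nhds h2] with z hz
      exact hL2 z hz
  have hnorm : ∀ s : ℂ, ‖Q s‖ = ‖P (1 - conj s)‖ := by
    intro s
    rw [hQ]
    simp only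
    rw [norm_mul, hw, one_mul, Complex.norm_conj]
  refine ⟨Λ, zero_le_one, hμ1, hμM, fun h => absurd h (by norm_num), hR,
    hle, hent, hF.diff, fun s hs => ?_, fun s hs => ?_, fun s => ?_, ?_, hone⟩
  · rw [hFs s hs, pow_zero, one_mul]
  · rw [hL1 s hs, pow_zero, one_mul]
    rfl
  · rcases lt_or_ge s.re 1 with h | h
    · rw [hL2 s h, hnorm, hL1 _ (by rw [re_conj_sub]; linarith)]
    · rw [hL1 s (by linarith), hL2 _ (by rw [re_conj_sub]; linarith), hnorm]
      simp
  · -- growth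
    obtain ⟨C₁, hC₁⟩ := hF.vert (-1) 2
    have hcomp : IsCompact ((Icc (-1 : ℝ) 2) ×ℂ (Icc (-1 : ℝ) 1)) := isCompact_Icc.reProdIm isCompact_Icc
    obtain ⟨C₂, hC₂⟩ := hcomp.exists_bound_of_continuousOn (f := Λ) hent.continuous.continuousOn
    refine ⟨max C₁ C₂, 0, fun s h1 h2 => ?_⟩
    rw [pow_zero, mul_one]
    rcases le_or_gt 1 |s.im| with h3 | h3
    · refine le_trans ?_ (le_max_left _ _)
      rcases lt_or_ge 0 s.re with h | h
      · rw [hL1 s h]
        exact hC₁ s h1 h2 h3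
      · rw [hL2 s (by linarith), hnorm]
        refine hC₁ _ ?_ ?_ ?_
        · rw [re_conj_sub]; linarith
        · rw [re_conj_sub]; linarith
        · simpa using h3
    · refine le_trans (hC₂ s ?_) (le_max_right _ _)
      rw [Complex.mem_reProdIm]
      rw [abs_lt] at h3
      exact ⟨⟨h1, h2⟩, ⟨h3.1.le, h3.2.le⟩⟩

end

/-- **CG-9** -/
theorem shmhecke : SHMhecke := by
  intro K _ _ _ n 𝔣 ψ hn hn0 htop h
  obtain ⟨e, he, hc, hmod⟩ := h.modK htop
  have hprimK := h.primK htop (e := e) hc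
  have htyp := hn.fty he hc
  have hinf := inf_fty hn hn0 e
  obtain ⟨F, hFE, hFL⟩ := Pool.Agent.N784.HC.fe_prim htyp hinf.ne hprimK hmod
  obtain ⟨Λ, hΛ⟩ := hm_of (R_one h.ne_bot) hFE hFL (fun φ => ex_nonneg _ φ)
    (fun φ => ex_alt _ φ) (fun φ => Pool.Agent.N784.HC.ex_le K he φ) hmod.norm_le_one
    (fun s hs => Pool.Agent.N784.HC.nv_K htyp hinf hmod hs (hFE.diff.analyticAt s)
      (Eventually.of_forall hFL))
  exact ⟨_, Λ, F, hΛ⟩

end Pool.Agent.H738.CGM
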