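import Pool.Agent.H857.EF.Core

/-!
# EF S5b: the quadratic-field data of a quadruple (helper738)
-/

set_option autoImplicit false

namespace Pool.Agent.H738.EF

open Module Polynomial Pool.Agent.W521.Descent Pool.Agent.W521.Density Pool.Agent.W521.Count
  Pool.Agent.X297.UB Pool.Agent.H857.PB Pool.Agent.H857.PA Pool.Agent.H857.HK Pool.Agent.H857.EF
open scoped ComplexConjugate

section sym

variable {R : Type*} [CommRing R]

/-- the second elementary symmetric function -/
def e2 (b : Fin 4 → R) : R :=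
  b 0 * b 1 + b 0 * b 2 + b 0 * b 3 + b 1 * b 2 + b 1 * b 3 + b 2 * b 3

lemma two_e2 (b : Fin 4 → R) : 2 * e2 b = (∑ i, b i) ^ 2 - ∑ i, b i ^ 2 := by
  rw [e2, Fin.sum_univ_four, Fin.sum_univ_four]
  ring

lemma map_e2 {S : Type*} [CommRing S] (f : R →+* S) (b : Fin 4 → R) :
    f (e2 b) = e2 (fun i => f (b i)) := by
  simp [e2]

lemma e2_perm {K : Type*} [Field K] [CharZero K] (b : Fin 4 → K) (π : Equiv.Perm (Fin 4)) :
    e2 (fun i => b (π i)) = e2 b := by
  have h := two_e2 (fun i => b (π i))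
  rw [Equiv.sum_comp π b, Equiv.sum_comp π (fun i => b i ^ 2), ← two_e2] at h
  exact mul_left_cancel₀ two_ne_zero h

lemma aeval_hom {S : Type*} [CommRing S] (f : R →+* S) (P : ℤ[X]) (z : R) :
    aeval (f z) P = f (aeval z P) := by
  rw [aeval_def, aeval_def, hom_eval₂]
  congr 1
  exact Subsingleton.elim _ _

end sym

/-- the quartic with given roots -/
lemma prod_eq_quartic {q : ℕ} (hq : q ≠ 0) {β : Fin 4 → ℂ} (h : ∀ i, β i * conj (β i) = q) :
    ∏ i, (X - C (β i)) = quartic q (∑ i, β i) (e2 β) ((∏ i, β i) / (q : ℂ) ^ 2) := by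
  have hqc : (q : ℂ) ≠ 0 := by exact_mod_cast hq
  have e4 : (∏ i, β i) / (q : ℂ) ^ 2 * (q : ℂ) ^ 2 = β 0 * β 1 * β 2 * β 3 := by
    rw [div_mul_cancel₀ _ (pow_ne_zero _ hqc), Fin.prod_univ_four]
  have e3 : (∏ i, β i) / (q : ℂ) ^ 2 * q * conj (∑ i, β i) =
      β 0 * β 1 * β 2 + β 0 * β 1 * β 3 + β 0 * β 2 * β 3 + β 1 * β 2 * β 3 := by
    rw [Fin.prod_univ_four, Fin.sum_univ_four, map_add, map_add, map_add]
    have h0 := h 0
    have h1 := h 1
    have h2 := h 2
    have h3 := h 3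
    field_simp
    linear_combination (β 1 * β 2 * β 3) * h0 + (β 0 * β 2 * β 3) * h1 +
      (β 0 * β 1 * β 3) * h2 + (β 0 * β 1 * β 2) * h3
  rw [quartic, e4, e3, Fin.prod_univ_four, Fin.sum_univ_four, e2]
  simp only [map_add, map_mul]
  ring

lemma isGal : IsGalois ℚ QB := by
  have h := algebraicClosure.isAlgClosure ℚ ℂ
  have h2 : (algebraicClosure ℚ ℂ).algebra' = (inferInstance : Algebra ℚ QB) :=
    Subsingleton.elim _ _
  rw [h2] at h
  exact @IsAlgClosure.isGalois ℚ QB _ _ _ h _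

/-- a number fixed by all automorphisms is rational -/
lemma rat_of_fixed {t : QB} (h : ∀ σ : QB ≃ₐ[ℚ] QB, σ t = t) : ∃ r : ℚ, (t : ℂ) = r := by
  have := isGal
  have h1 := (InfiniteGalois.mem_bot_iff_fixed (k := ℚ) (K := QB) t).2 h
  rw [IntermediateField.mem_bot] at h1
  obtain ⟨r, hr⟩ := h1
  refine ⟨r, ?_⟩
  rw [← hr]
  exact map_ratCast (algebraMap QB ℂ) r

/-- **S5b** -/
theorem s5b (h5a : S5a) : S5b := by
  intro q hq x β hx hQ
  have hq0 : q ≠ 0 := hq.ne'
  have hqc : (q : ℂ) ≠ 0 := by exact_mod_cast hq0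
  have hqB : (q : QB) ≠ 0 := by exact_mod_cast hq0
  have hroot : ∀ i, aeval (β i) (wp q 4 x) = 0 := fun i => (lab_root hq0 x _).2 ⟨i, hQ.mem i⟩
  have hnorm : ∀ i, ‖β i‖ ^ 2 = q := fun i => hx.2.2.2 _ (hroot i)
  have hconj : ∀ i, β i * conj (β i) = q := by
    intro i
    rw [Complex.mul_conj, Complex.normSq_eq_norm_sq, hnorm i]
    simp
  have hβ0 : ∀ i, β i ≠ 0 := by
    intro i h0
    have := hconj i
    rw [h0, zero_mul] at this
    exact hqc this.symm
  have hdiv : ∀ i, (q : ℂ) / β i = conj (β i) := by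
    intro i
    rw [div_eq_iff (hβ0 i), mul_comm, hconj]
  -- the pairs
  have hpair : ∀ i, (β i = labA q 4 x i ∧ conj (β i) = labB q 4 x i) ∨
      (β i = labB q 4 x i ∧ conj (β i) = labA q 4 x i) := by
    intro i
    have h1 := lab_mul q 4 x i
    rcases hQ.mem i with h | h
    · left
      refine ⟨h, mul_left_cancel₀ (hβ0 i) ?_⟩
      rw [hconj i, h, h1]
    · right
      refine ⟨h, mul_left_cancel₀ (hβ0 i) ?_⟩
      rw [hconj i, h, mul_comm, h1]
  -- the lifts
  have hint : ∀ i, IsIntegral ℤ (β i) := fun i => ⟨wp q 4 x, wp_monic q 4 x, by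
    rw [← aeval_def]; exact hroot i⟩
  have halg : ∀ i, β i ∈ algebraicClosure ℚ ℂ := fun i =>
    mem_algebraicClosure_iff'.2 ((hint i).tower_top)
  obtain ⟨b, hb⟩ : ∃ b : Fin 4 → QB, ∀ i, ((b i : QB) : ℂ) = β i := ⟨fun i => ⟨β i, halg i⟩,
    fun i => rfl⟩
  have hb0 : ∀ i, b i ≠ 0 := by
    intro i h0
    apply hβ0 i
    rw [← hb i, h0]
    rfl
  obtain ⟨c, hc⟩ : ∃ c : Fin 4 → QB, ∀ i, c i = q / b i := ⟨_, fun i => rfl⟩
  have hcc : ∀ i, ((c i : QB) : ℂ) = conj (β i) := by
    intro i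
    rw [hc i, ← hdiv i, ← hb i]
    push_cast
    rfl
  have hbc : ∀ i, b i * c i = q := by
    intro i
    rw [hc i, mul_div_cancel₀ _ (hb0 i)]
  have hqs : (Real.sqrt q) ^ 2 = q := Real.sq_sqrt (Nat.cast_nonneg q)
  have hn : ∀ i, ‖β i‖ = Real.sqrt q := by
    intro i
    rw [← hnorm i, Real.sqrt_sq (norm_nonneg _)]
  -- the action of the automorphisms
  have hact : ∀ σ : QB ≃ₐ[ℚ] QB, (∃ π : Equiv.Perm (Fin 4), (∀ i, σ (b i) = b (π i)) ∧
      ∀ i, σ (c i) = c (π i)) ∨
      (∃ π : Equiv.Perm (Fin 4), (∀ i, σ (b i) = c (π i)) ∧ ∀ i, σ (c i) = b (π i)) := by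
    intro σ
    have hj : ∀ i, ∃ j, σ (b i) = b j ∨ σ (b i) = q / b j := by
      intro i
      have h1 : aeval ((σ (b i) : QB) : ℂ) (wp q 4 x) = 0 := by
        have h2 := aeval_hom ((algebraMap QB ℂ).comp (σ : QB →+* QB)) (wp q 4 x) (b i)
        have h3 : aeval (b i) (wp q 4 x) = 0 := by
          apply (algebraMap QB ℂ).injective
          rw [← aeval_hom, map_zero]
          have h4 : algebraMap QB ℂ (b i) = β i := hb i
          rw [h4]
          exact hroot i
        rw [h3, map_zero] at h2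
        exact h2
      obtain ⟨j, hj⟩ := (lab_root hq0 x _).1 h1
      refine ⟨j, ?_⟩
      have h5 : ((σ (b i) : QB) : ℂ) = β j ∨ ((σ (b i) : QB) : ℂ) = conj (β j) := by
        rcases hpair j with ⟨h6, h7⟩ | ⟨h6, h7⟩ <;> rcases hj with h8 | h8
        · exact Or.inl (h8.trans h6.symm)
        · exact Or.inr (h8.trans h7.symm)
        · exact Or.inr (h8.trans h7.symm)
        · exact Or.inl (h8.trans h6.symm)
      rcases h5 with h5 | h5
      · left
        apply Subtype.ext
        rw [h5, hb]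
      · right
        rw [← hc]
        apply Subtype.ext
        rw [h5, hcc]
    have hσq : σ (q : QB) = q := map_natCast σ q
    rcases h5a q hq b (fun i j hij => hQ.inj (by rw [← hb i, ← hb j, hij]))
      (by simp only [hb]; exact hQ.prod) (fun i j => by rw [hb, hb]; exact hQ.pair i j) σ hj with
      ⟨π, hπ⟩ | ⟨π, hπ⟩
    · left
      refine ⟨π, hπ, fun i => ?_⟩
      rw [hc, hc, map_div₀, hπ, hσq]
    · right
      refine ⟨π, fun i => by rw [hπ, hc], fun i => ?_⟩
      rw [hc, map_div₀, hπ, hσq, div_div_cancel₀ hqB]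
  -- the product
  obtain ⟨ζ, hζ⟩ : ∃ ζ : ℂ, ζ = (∏ i, β i) / (q : ℂ) ^ 2 := ⟨_, rfl⟩
  have hUc : ((∑ i, b i : QB) : ℂ) = ∑ i, β i := by
    have h1 : algebraMap QB ℂ (∑ i, b i) = ∑ i, algebraMap QB ℂ (b i) := map_sum _ _ _
    rw [← Finset.sum_congr rfl fun i _ => hb i]
    exact h1
  have hVc : ((e2 b : QB) : ℂ) = e2 β := by
    have h1 : algebraMap QB ℂ (e2 b) = e2 (fun i => algebraMap QB ℂ (b i)) := map_e2 _ _
    have h2 : (fun i => algebraMap QB ℂ (b i)) = β := funext hb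
    rw [h2] at h1
    exact h1
  refine ⟨∑ i, b i, e2 b, ζ, ?_⟩
  have hfac : (wp q 4 x).map (algebraMap ℤ ℂ) =
      (∏ i, (X - C (β i))) * ∏ i, (X - C (conj (β i))) := by
    rw [wp_map_eq (lab_mul q 4 x) (lab_hp q 4 x), ← Finset.prod_mul_distrib]
    refine Finset.prod_congr rfl fun i _ => ?_
    rcases hpair i with ⟨h6, h7⟩ | ⟨h6, h7⟩
    · rw [h6, ← h7, h6]
    · rw [h6, ← h7, h6, mul_comm]
  have hintB : ∀ i, IsIntegral ℤ (b i) := fun i => by
    refine (isIntegral_algHom_iff (algebraMap QB ℂ).toIntAlgHom (algebraMap QB ℂ).injective).1 ?_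
    have h4 : (algebraMap QB ℂ).toIntAlgHom (b i) = β i := hb i
    rw [h4]
    exact hint i
  refine ⟨?_, ?_, ?_, ?_, ?_, ?_, ?_, ?_⟩
  · -- the factorisation
    have h1 := hfac
    rw [hUc, hVc, hζ, ← prod_eq_quartic hq0 hconj, Polynomial.map_prod]
    have h2 : ∀ i, (X - C (β i)).map (starRingEnd ℂ) = X - C (conj (β i)) := by
      intro i
      rw [Polynomial.map_sub, map_X, map_C]
    simp only [h2]
    exact h1
  · exact IsIntegral.sum _ fun i _ => hintB i
  · have h := hintB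
    unfold e2
    exact ((((((h 0).mul (h 1)).add ((h 0).mul (h 2))).add ((h 0).mul (h 3))).add
      ((h 1).mul (h 2))).add ((h 1).mul (h 3))).add ((h 2).mul (h 3))
  · -- the automorphisms
    intro σ
    rcases hact σ with ⟨π, h1, -⟩ | ⟨π, h1, -⟩
    · left
      constructor
      · rw [map_sum]
        simp only [h1]
        exact Equiv.sum_comp π b
      · have h2 : σ (e2 b) = e2 (fun i => σ (b i)) := map_e2 (σ : QB →+* QB) b
        rw [h2]
        simp only [h1]
        exact e2_perm b π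
    · right
      constructor
      · rw [map_sum]
        simp only [h1]
        rw [Equiv.sum_comp π c, hUc, map_sum]
        have h2 : algebraMap QB ℂ (∑ i, c i) = ∑ i, algebraMap QB ℂ (c i) := map_sum _ _ _
        rw [← Finset.sum_congr rfl fun i _ => hcc i]
        exact h2
      · have h2 : σ (e2 b) = e2 (fun i => σ (b i)) := map_e2 (σ : QB →+* QB) b
        rw [h2]
        simp only [h1]
        rw [e2_perm c π, hVc, map_e2]
        have h3 : algebraMap QB ℂ (e2 c) = e2 (fun i => algebraMap QB ℂ (c i)) := map_e2 _ _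
        have h4 : (fun i => algebraMap QB ℂ (c i)) = fun i => conj (β i) := funext hcc
        rw [h4] at h3
        exact h3
  · rw [hUc]
    refine (norm_sum_le _ _).trans (le_of_eq ?_)
    rw [Finset.sum_congr rfl fun i _ => hn i, Finset.sum_const, Finset.card_univ,
      Fintype.card_fin, nsmul_eq_mul]
    norm_num
  · rw [hVc]
    have h2 : ∀ i j, ‖β i * β j‖ = q := by
      intro i j
      rw [norm_mul, hn, hn, ← sq, hqs]
    unfold e2
    refine (norm_add_le _ _).trans ?_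
    rw [h2]
    have h3 : ‖β 0 * β 1 + β 0 * β 2 + β 0 * β 3 + β 1 * β 2 + β 1 * β 3‖ ≤
        q + q + q + q + q := by
      refine (norm_add_le _ _).trans (add_le_add ?_ (h2 _ _).le)
      refine (norm_add_le _ _).trans (add_le_add ?_ (h2 _ _).le)
      refine (norm_add_le _ _).trans (add_le_add ?_ (h2 _ _).le)
      exact (norm_add_le _ _).trans (add_le_add (h2 _ _).le (h2 _ _).le)
    linarith
  · -- the line
    rw [hVc, hζ, map_e2, Fin.prod_univ_four]
    unfold e2
    have h0 := hconj 0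
    have h1 := hconj 1
    have h2 := hconj 2
    have h3 := hconj 3
    have hq2 : (q : ℂ) ^ 2 ≠ 0 := pow_ne_zero _ hqc
    rw [div_mul_eq_mul_div, eq_div_iff hq2]
    linear_combination
      -(β 2 * β 3 * (β 1 * conj (β 1)) * h0 + β 2 * β 3 * q * h1) -
      (β 1 * β 3 * (β 2 * conj (β 2)) * h0 + β 1 * β 3 * q * h2) -
      (β 1 * β 2 * (β 3 * conj (β 3)) * h0 + β 1 * β 2 * q * h3) -
      (β 0 * β 3 * (β 2 * conj (β 2)) * h1 + β 0 * β 3 * q * h2) -
      (β 0 * β 2 * (β 3 * conj (β 3)) * h1 + β 0 * β 2 * q * h3) -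
      (β 0 * β 1 * (β 3 * conj (β 3)) * h2 + β 0 * β 1 * q * h3)
  · -- the root of unity
    have hprodc : (∏ i, β i) * ∏ i, conj (β i) = (q : ℂ) ^ 4 := by
      rw [← Finset.prod_mul_distrib, Finset.prod_congr rfl fun i _ => hconj i, Finset.prod_const,
        Finset.card_univ, Fintype.card_fin]
    refine ⟨?_, ?_⟩
    · obtain ⟨N, hN, h⟩ := hQ.prod
      refine ⟨N, hN, ?_⟩
      rw [hζ, div_pow, h, div_self (pow_ne_zero _ (pow_ne_zero _ hqc))]
    · have hfix : ∀ σ : QB ≃ₐ[ℚ] QB, σ ((∏ i, b i) / (q : QB) ^ 2 + (∏ i, c i) / (q : QB) ^ 2) =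
          (∏ i, b i) / (q : QB) ^ 2 + (∏ i, c i) / (q : QB) ^ 2 := by
        intro σ
        have hσq : σ (q : QB) = q := map_natCast σ q
        rcases hact σ with ⟨π, h1, h2⟩ | ⟨π, h1, h2⟩
        · rw [map_add, map_div₀, map_div₀, map_pow, hσq, map_prod, map_prod]
          simp only [h1, h2]
          rw [Equiv.prod_comp π b, Equiv.prod_comp π c]
        · rw [map_add, map_div₀, map_div₀, map_pow, hσq, map_prod, map_prod]
          simp only [h1, h2]
          rw [Equiv.prod_comp π b, Equiv.prod_comp π c, add_comm]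
      obtain ⟨r, hr⟩ := rat_of_fixed hfix
      have hcζ : conj ζ = (∏ i, conj (β i)) / (q : ℂ) ^ 2 := by
        rw [hζ, map_div₀, map_prod, map_pow, Complex.conj_natCast]
      have h1 : ζ + conj ζ = r := by
        rw [← hr, hcζ, hζ]
        have h2 : algebraMap QB ℂ ((∏ i, b i) / (q : QB) ^ 2 + (∏ i, c i) / (q : QB) ^ 2) =
            (∏ i, algebraMap QB ℂ (b i)) / (q : ℂ) ^ 2 +
              (∏ i, algebraMap QB ℂ (c i)) / (q : ℂ) ^ 2 := by
          rw [map_add, map_div₀, map_div₀, map_pow, map_natCast, map_prod, map_prod]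
        have h3 : (fun i => algebraMap QB ℂ (b i)) = β := funext hb
        have h4 : (fun i => algebraMap QB ℂ (c i)) = fun i => conj (β i) := funext hcc
        have h5 : ∀ f : Fin 4 → ℂ, ∏ i, f i = ∏ i, (fun i => f i) i := fun f => rfl
        rw [h5 (fun i => algebraMap QB ℂ (b i)), h3, h5 (fun i => algebraMap QB ℂ (c i)), h4] at h2
        exact h2.symm
      have h2 : ζ * conj ζ = 1 := by
        rw [hcζ, hζ, div_mul_div_comm, hprodc, ← pow_add, div_self (pow_ne_zero _ hqc)]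
      have h3 : aeval ζ (X ^ 2 - C r * X + 1 : ℚ[X]) = 0 := by
        simp only [map_add, map_sub, map_mul, map_pow, aeval_X, aeval_C, map_one,
          eq_ratCast]
        rw [← h1]
        linear_combination -h2
      have h4 : (X ^ 2 - C r * X + 1 : ℚ[X]).natDegree = 2 := by compute_degree!
      have h5 : (X ^ 2 - C r * X + 1 : ℚ[X]) ≠ 0 := by
        intro h
        rw [h] at h4
        simp at h4
      have h6 := natDegree_le_of_dvd (minpoly.dvd ℚ ζ h3) h5
      rwa [h4] at h6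

end Pool.Agent.H738.EF
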