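import Pool.Agent.H979.FR.Stm

/-!
# A walk through all vertices of a ball with a uniform length bound (`S_TOUR`)
-/

set_option autoImplicit false

namespace Pool.Agent.H738

open Pool.Agent.H979.FR

namespace FRTour

variable {V : Type} (G : SimpleGraph V) [G.LocallyFinite]

lemma tour (hG : G.Connected) (d : ℕ) (hd : ∀ v, G.degree v = d) (L : ℕ) :
    ∃ N : ℕ, ∀ x : V, ∃ p : G.Walk x x, p.length ≤ N ∧
      ∀ y, G.dist x y ≤ L → y ∈ p.support := by
  classical
  induction L with
  | zero =>
    refine ⟨0, fun x => ⟨SimpleGraph.Walk.nil, le_refl _, fun y hy => ?_⟩⟩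
    have h : x = y := (hG.dist_eq_zero_iff).mp (Nat.le_zero.mp hy)
    subst h
    exact SimpleGraph.Walk.start_mem_support _
  | succ L ih =>
    obtain ⟨N, hN⟩ := ih
    refine ⟨d * (N + 2), fun x => ?_⟩
    have key : ∀ S : Finset V, S ⊆ G.neighborFinset x → ∃ p : G.Walk x x,
        p.length ≤ S.card * (N + 2) ∧ ∀ z ∈ S, ∀ y, G.dist z y ≤ L → y ∈ p.support := by
      intro S
      induction S using Finset.induction_on with
      | empty =>
        intro _
        exact ⟨SimpleGraph.Walk.nil, Nat.zero_le _, fun z hz => absurd hz (Finset.notMem_empty z)⟩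
      | insert z S hz ihS =>
        intro hS
        obtain ⟨p, hp1, hp2⟩ := ihS ((Finset.subset_insert z S).trans hS)
        have hadj : G.Adj x z := (G.mem_neighborFinset x z).mp (hS (Finset.mem_insert_self z S))
        obtain ⟨t, ht1, ht2⟩ := hN z
        refine ⟨SimpleGraph.Walk.cons hadj (t.append (SimpleGraph.Walk.cons hadj.symm p)), ?_, ?_⟩
        · rw [SimpleGraph.Walk.length_cons, SimpleGraph.Walk.length_append,
            SimpleGraph.Walk.length_cons, Finset.card_insert_of_notMem hz, Nat.succ_mul]
          omega
        · intro w hw y hy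
          rw [SimpleGraph.Walk.support_cons]
          refine List.mem_cons_of_mem _ ?_
          rw [SimpleGraph.Walk.mem_support_append_iff]
          rcases Finset.mem_insert.mp hw with h | h
          · left
            rw [h] at hy
            exact ht2 y hy
          · right
            rw [SimpleGraph.Walk.support_cons]
            exact List.mem_cons_of_mem _ (hp2 w h y hy)
    obtain ⟨p, hp1, hp2⟩ := key _ (Finset.Subset.refl _)
    rw [SimpleGraph.card_neighborFinset_eq_degree, hd] at hp1
    refine ⟨p, hp1, fun y hy => ?_⟩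
    obtain ⟨w, hw⟩ := hG.exists_walk_length_eq_dist x y
    cases w with
    | nil => exact SimpleGraph.Walk.start_mem_support _
    | cons h w' =>
      rename_i z
      rw [SimpleGraph.Walk.length_cons] at hw
      have h1 : G.dist z y ≤ L := (SimpleGraph.dist_le w').trans (by omega)
      exact hp2 z ((G.mem_neighborFinset x z).mpr h) y h1

end FRTour

open FRTour in
/-- **TOUR.** -/
theorem fr_tour : S_TOUR := by
  intro V G _ hG d hd0 hd L
  obtain ⟨N, hN⟩ := tour G hG d hd L
  refine ⟨N, fun x => ?_⟩
  obtain ⟨p, hp1, hp2⟩ := hN x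
  have hnb : ∀ v : V, ∃ w, G.Adj v w := by
    intro v
    have h1 : 0 < G.degree v := by
      rw [hd v]
      exact hd0
    exact (G.degree_pos_iff_exists_adj v).mp h1
  choose nb hnb using hnb
  refine ⟨fun i => if i ≤ p.length then p.getVert i else nb^[i - p.length] x, ?_, ?_, ?_⟩
  · show (if 0 ≤ p.length then p.getVert 0 else nb^[0 - p.length] x) = x
    rw [if_pos (Nat.zero_le _), SimpleGraph.Walk.getVert_zero]
  · intro i
    show G.Adj (if i ≤ p.length then p.getVert i else nb^[i - p.length] x)
      (if i + 1 ≤ p.length then p.getVert (i + 1) else nb^[i + 1 - p.length] x)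
    by_cases h : i + 1 ≤ p.length
    · rw [if_pos h, if_pos (by omega)]
      exact p.adj_getVert_succ (by omega)
    · rw [if_neg h]
      have h2 : i + 1 - p.length = (i - p.length) + 1 := by omega
      rw [h2, Function.iterate_succ_apply']
      by_cases h3 : i ≤ p.length
      · rw [if_pos h3]
        have h4 : i = p.length := by omega
        rw [h4, SimpleGraph.Walk.getVert_length, Nat.sub_self]
        exact hnb x
      · rw [if_neg h3]
        exact hnb _
  · intro y hy
    obtain ⟨i, hi1, hi2⟩ := SimpleGraph.Walk.mem_support_iff_exists_getVert.mp (hp2 y hy)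
    refine ⟨i, by omega, ?_⟩
    show (if i ≤ p.length then p.getVert i else nb^[i - p.length] x) = y
    rw [if_pos hi2]
    exact hi1

end Pool.Agent.H738
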