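import Pool.Agent.H867.FT.Gen2

/-!
# Linear automorphisms of `k[[X_1..X_d]]`

Proof of `Pool.Agent.H867.FT.S_AUT`: an invertible matrix `A` gives the automorphism
`X_i ↦ ∑_j A_ij X_j` of the power series ring, and on the forms of degree `e` it is the polynomial
substitution.
-/

namespace Pool.Agent.H738.FT867AUT

variable {k : Type} [Field k] {d : ℕ}

/-- The linear forms as power series. -/
noncomputable def lin (A : Matrix (Fin d) (Fin d) k) (i : Fin d) : MvPowerSeries (Fin d) k :=
  ∑ j, MvPowerSeries.C (A i j) * MvPowerSeries.X j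

lemma lin_def (A : Matrix (Fin d) (Fin d) k) (i : Fin d) :
    lin A i = ∑ j, MvPowerSeries.C (A i j) * MvPowerSeries.X j := rfl

/-- The linear forms as polynomials. -/
noncomputable def linP (A : Matrix (Fin d) (Fin d) k) (i : Fin d) : MvPolynomial (Fin d) k :=
  ∑ j, MvPolynomial.C (A i j) * MvPolynomial.X j

lemma lin_coe (A : Matrix (Fin d) (Fin d) k) (i : Fin d) :
    MvPolynomial.coeToMvPowerSeries.ringHom (linP A i) = lin A i := by
  unfold linP lin
  rw [map_sum]
  refine Finset.sum_congr rfl fun j _ => ?_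
  rw [map_mul]
  simp

lemma const_lin (A : Matrix (Fin d) (Fin d) k) (i : Fin d) :
    MvPowerSeries.constantCoeff (lin A i) = 0 := by
  unfold lin
  rw [map_sum]
  refine Finset.sum_eq_zero fun j _ => ?_
  rw [map_mul, MvPowerSeries.constantCoeff_X, mul_zero]

lemma hs (A : Matrix (Fin d) (Fin d) k) : MvPowerSeries.HasSubst (lin A) :=
  MvPowerSeries.hasSubst_of_constantCoeff_zero (const_lin A)

lemma subst_lin (A B : Matrix (Fin d) (Fin d) k) (i : Fin d) :
    MvPowerSeries.subst (lin B) (lin A i) = lin (A * B) i := by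
  rw [← MvPowerSeries.substAlgHom_apply (hs B), lin_def A i, map_sum]
  have h1 : ∀ j, MvPowerSeries.substAlgHom (R := k) (hs B)
      (MvPowerSeries.C (A i j) * MvPowerSeries.X j) =
      ∑ l, MvPowerSeries.C (A i j * B j l) * MvPowerSeries.X l := by
    intro j
    rw [map_mul, MvPowerSeries.substAlgHom_X, MvPowerSeries.substAlgHom_apply,
      MvPowerSeries.subst_C, lin_def B j, Finset.mul_sum]
    refine Finset.sum_congr rfl fun l _ => ?_
    rw [map_mul, mul_assoc]
  rw [Finset.sum_congr rfl fun j _ => h1 j, Finset.sum_comm, lin_def (A * B) i]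
  refine Finset.sum_congr rfl fun l _ => ?_
  rw [← Finset.sum_mul, ← map_sum, Matrix.mul_apply]

lemma lin_one (i : Fin d) : lin (1 : Matrix (Fin d) (Fin d) k) i = MvPowerSeries.X i := by
  unfold lin
  rw [Finset.sum_eq_single i]
  · rw [Matrix.one_apply_eq, map_one, one_mul]
  · intro j _ hj
    rw [Matrix.one_apply_ne (Ne.symm hj), map_zero, zero_mul]
  · intro h
    exact absurd (Finset.mem_univ i) h

lemma subst_subst (A B : Matrix (Fin d) (Fin d) k) (h : A * B = 1)
    (f : MvPowerSeries (Fin d) k) :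
    MvPowerSeries.subst (lin B) (MvPowerSeries.subst (lin A) f) = f := by
  rw [MvPowerSeries.subst_comp_subst_apply (hs A) (hs B)]
  have h1 : (fun s => MvPowerSeries.subst (lin B) (lin A s)) =
      (MvPowerSeries.X : Fin d → MvPowerSeries (Fin d) k) := by
    funext s
    rw [subst_lin, h, lin_one]
  rw [h1, MvPowerSeries.subst_self]
  rfl

/-- The automorphism. -/
noncomputable def aut (A B : Matrix (Fin d) (Fin d) k) (h : A * B = 1) (h' : B * A = 1) :
    MvPowerSeries (Fin d) k ≃+* MvPowerSeries (Fin d) k :=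
  { (MvPowerSeries.substAlgHom (R := k) (hs A)).toRingHom with
    invFun := MvPowerSeries.subst (lin B)
    left_inv := by
      intro f
      have : (MvPowerSeries.substAlgHom (R := k) (hs A)) f = MvPowerSeries.subst (lin A) f :=
        MvPowerSeries.substAlgHom_apply (hs A) f
      exact (congrArg (MvPowerSeries.subst (lin B)) this).trans (subst_subst A B h f)
    right_inv := by
      intro f
      have : (MvPowerSeries.substAlgHom (R := k) (hs A)) (MvPowerSeries.subst (lin B) f) =
          MvPowerSeries.subst (lin A) (MvPowerSeries.subst (lin B) f) :=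
        MvPowerSeries.substAlgHom_apply (hs A) _
      exact this.trans (subst_subst B A h' f) }

lemma aut_apply (A B : Matrix (Fin d) (Fin d) k) (h : A * B = 1) (h' : B * A = 1)
    (f : MvPowerSeries (Fin d) k) : aut A B h h' f = MvPowerSeries.subst (lin A) f :=
  MvPowerSeries.substAlgHom_apply (hs A) f

lemma linP_hom (A : Matrix (Fin d) (Fin d) k) (i : Fin d) : (linP A i).IsHomogeneous 1 := by
  unfold linP
  refine MvPolynomial.IsHomogeneous.sum _ _ _ fun j _ => ?_
  exact (MvPolynomial.isHomogeneous_X k j).C_mul (A i j)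

lemma prod_hom (A : Matrix (Fin d) (Fin d) k) (m : Fin d →₀ ℕ) :
    (∏ i, linP A i ^ m i).IsHomogeneous m.degree := by
  have h := MvPolynomial.IsHomogeneous.prod Finset.univ (fun i => linP A i ^ m i)
    (fun i => 1 * m i) (fun i _ => (linP_hom A i).pow (m i))
  have h2 : ∑ i, 1 * m i = m.degree := by
    rw [Finsupp.degree_eq_sum]
    simp
  rw [h2] at h
  exact h

lemma coeff_prod (A : Matrix (Fin d) (Fin d) k) (m n : Fin d →₀ ℕ) :
    MvPowerSeries.coeff n (m.prod fun s e => (lin A s) ^ e) =
      MvPolynomial.coeff n (∏ i, linP A i ^ m i) := by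
  have h1 : (m.prod fun s e => (lin A s) ^ e) =
      MvPolynomial.coeToMvPowerSeries.ringHom (∏ i, linP A i ^ m i) := by
    rw [Finsupp.prod_fintype _ _ (fun i => pow_zero _), map_prod]
    refine Finset.prod_congr rfl fun i _ => ?_
    rw [map_pow, lin_coe]
  rw [h1, MvPolynomial.coeToMvPowerSeries.ringHom_apply, MvPolynomial.coeff_coe]

lemma coeff_aut (A B : Matrix (Fin d) (Fin d) k) (h : A * B = 1) (h' : B * A = 1)
    (c : MvPowerSeries (Fin d) k) (e : ℕ) (n : Fin d →₀ ℕ) (hn : n.degree = e) :
    MvPowerSeries.coeff n (aut A B h h' c) =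
      MvPolynomial.coeff n (∑ m ∈ Finset.finsuppAntidiag Finset.univ e,
        MvPolynomial.C (MvPowerSeries.coeff m c) * ∏ i, linP A i ^ m i) := by
  rw [aut_apply, MvPowerSeries.coeff_subst (hs A)]
  rw [finsum_eq_sum_of_support_subset (s := Finset.finsuppAntidiag Finset.univ e)]
  · rw [MvPolynomial.coeff_sum]
    refine Finset.sum_congr rfl fun m _ => ?_
    rw [MvPolynomial.coeff_C_mul, coeff_prod, smul_eq_mul]
  · intro m hm
    rw [Function.mem_support, coeff_prod] at hm
    have h1 : MvPolynomial.coeff n (∏ i, linP A i ^ m i) ≠ 0 := by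
      intro h0
      rw [h0, smul_zero] at hm
      exact hm rfl
    have h2 : n.degree = m.degree := by
      by_contra hne
      exact h1 ((prod_hom A m).coeff_eq_zero hne)
    rw [Finset.mem_coe, Finset.mem_finsuppAntidiag]
    refine ⟨?_, Finset.subset_univ _⟩
    rw [← hn, h2, Finsupp.degree_eq_sum]

/-- **AUT.** -/
theorem s_aut : Pool.Agent.H867.FT.S_AUT := by
  intro k _ d A B h h'
  refine ⟨aut A B h h', fun i => ?_, fun c e _ n hn => ?_⟩
  · rw [aut_apply, MvPowerSeries.subst_X (hs A)]
    rfl
  · exact coeff_aut A B h h' c e n hn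

end Pool.Agent.H738.FT867AUT
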